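import Mathlib
import Pool.Agent.H90.WlpD

namespace Pool.Agent.Results.MP_abad15_an.NonSN

open Pool.Agent.H90.Wlp

universe u

theorem result (Γ : Type u) :
    WLP (lp (fun _ : Γ => ℝ) 2) ↔ Cardinal.mk Γ < Cardinal.lift.{u} nonSN :=
  wlp_iff Γ

end Pool.Agent.Results.MP_abad15_an.NonSN
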